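import Pool.Agent.Lib.MP_16285c_agS.Defs

/-!
# Totally invariant discrete valuation rings

If the residue degree of `ρ` along the discrete valuation ring `O` is the whole degree of `ρ`, then `O` is totally invariant.
-/

set_option autoImplicit false

namespace Pool.Agent.Lib.MP_16285c_agS.DgvM

section

variable {k E : Type} [Field k] [Field E] [Algebra k E] {ρ : E →ₐ[k] E} {O : ValuationSubring E}

/-- Uniformizers have the largest value less than `1`. -/
theorem val_lt {x : E} (h : O.valuation x < 1) (ϖ : O) (hd : IsDiscreteValuationRing O)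
    (hϖ : Irreducible ϖ) : O.valuation x ≤ O.valuation (ϖ : E) := by
  have hx : x ∈ O := (O.valuation_le_one_iff x).1 h.le
  have h1 : (⟨x, hx⟩ : O) ∈ IsLocalRing.maximalIdeal O := (O.valuation_lt_one_iff _).2 h
  rw [hϖ.maximalIdeal_eq, Ideal.mem_span_singleton'] at h1
  obtain ⟨a, ha⟩ := h1
  rw [O.valuation_le_iff]
  exact ⟨a, congrArg Subtype.val ha⟩

/-- `ρ` is a local homomorphism. -/
theorem rho_lt (hρ : ∀ x : E, ρ x ∈ O ↔ x ∈ O) {x : E} (h : O.valuation x < 1) :
    O.valuation (ρ x) < 1 := by
  by_cases hx : x = 0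
  · rw [hx, map_zero, map_zero]
    exact zero_lt_one
  by_contra hc
  have h1 : O.valuation (ρ x)⁻¹ ≤ 1 := by
    rw [map_inv₀]
    exact inv_le_one_of_one_le₀ (not_lt.1 hc)
  rw [O.valuation_le_one_iff, ← map_inv₀, hρ, ← O.valuation_le_one_iff, map_inv₀] at h1
  have h2 : (0 : O.ValueGroup) < O.valuation x := by
    rw [zero_lt_iff]
    exact (Valuation.ne_zero_iff _).2 hx
  exact absurd h1 (not_le.2 (one_lt_inv₀ h2 |>.2 h))

/-- `ρ` preserves and reflects integrality. -/
theorem rho_le (hρ : ∀ x : E, ρ x ∈ O ↔ x ∈ O) {x : E} :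
    O.valuation (ρ x) ≤ 1 ↔ O.valuation x ≤ 1 := by
  rw [O.valuation_le_one_iff, O.valuation_le_one_iff, hρ]

/-- The value of a combination of the `θ i`. -/
theorem val_sum (hρ : ∀ x : E, ρ x ∈ O ↔ x ∈ O) {T : ℕ} (hT : 1 ≤ T) (θ : Fin T → E)
    (hθ : ∀ i, θ i ∈ O)
    (hi : ∀ a : Fin T → E, (∀ i, a i ∈ O) → O.valuation (∑ i, ρ (a i) * θ i) < 1 →
      ∀ i, O.valuation (a i) < 1) (a : Fin T → E) :
    ∃ j, (∀ i, O.valuation (a i) ≤ O.valuation (a j)) ∧
      O.valuation (∑ i, ρ (a i) * θ i) = O.valuation (ρ (a j)) := by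
  have : Nonempty (Fin T) := ⟨⟨0, hT⟩⟩
  obtain ⟨j, hj⟩ := Finite.exists_max fun i => O.valuation (a i)
  refine ⟨j, hj, ?_⟩
  by_cases h0 : a j = 0
  · have h1 : ∀ i, a i = 0 := by
      intro i
      have := hj i
      rw [h0, map_zero] at this
      exact (Valuation.zero_iff _).1 (le_antisymm this zero_le)
    simp [h1]
  · have h1 : ∀ i, a i / a j ∈ O := by
      intro i
      rw [← O.valuation_le_one_iff, map_div₀]
      exact div_le_one_of_le₀ (hj i) zero_le
    have h2 : ∑ i, ρ (a i) * θ i = ρ (a j) * ∑ i, ρ (a i / a j) * θ i := by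
      rw [Finset.mul_sum]
      refine Finset.sum_congr rfl fun i _ => ?_
      rw [← mul_assoc, ← map_mul, mul_div_cancel₀ _ h0]
    have h3 : O.valuation (∑ i, ρ (a i / a j) * θ i) = 1 := by
      refine le_antisymm ?_ ?_
      · rw [O.valuation_le_one_iff]
        exact sum_mem fun i _ => mul_mem ((hρ _).2 (h1 i)) (hθ i)
      · by_contra hc
        have h4 := hi (fun i => a i / a j) h1 (not_le.1 hc) j
        simp only [div_self h0, map_one, lt_self_iff_false] at h4
    rw [h2, map_mul, h3, mul_one]

end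

end Pool.Agent.Lib.MP_16285c_agS.DgvM

namespace Pool.Agent.Lib.MP_16285c_agS

open DgvM

/-- The whole degree in the residue field: the valuation ring is totally invariant. -/
theorem tDegV : StmtDegV := by
  intro k E _ _ _ ρ O hd hk hρ T hT hfin θ hθ hi
  have hfd : FiniteDimensional ρ.fieldRange E := FiniteDimensional.of_finrank_pos (by omega)
  have hli : LinearIndependent ρ.fieldRange θ := by
    rw [Fintype.linearIndependent_iff]
    intro g hg
    choose a ha using fun i => (g i).2
    obtain ⟨j, hj, hv⟩ := val_sum hρ hT θ hθ hi a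
    have h1 : ∑ i, ρ (a i) * θ i = 0 := by
      rw [← hg]
      refine Finset.sum_congr rfl fun i _ => ?_
      rw [Algebra.smul_def]
      congr 1
      exact ha i
    rw [h1, map_zero] at hv
    have h2 : a j = 0 := by
      have := (Valuation.zero_iff _).1 hv.symm
      exact (map_eq_zero ρ).1 this
    intro i
    have h3 := hj i
    rw [h2, map_zero] at h3
    have h4 : a i = 0 := (Valuation.zero_iff _).1 (le_antisymm h3 zero_le)
    apply Subtype.ext
    rw [← ha i, h4]
    exact map_zero ρ
  have hspan : Submodule.span ρ.fieldRange (Set.range θ) = ⊤ :=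
    hli.span_eq_top_of_card_eq_finrank' (by rw [hfin, Fintype.card_fin])
  have hex : ∀ x : E, ∃ a : Fin T → E, x = ∑ i, ρ (a i) * θ i := by
    intro x
    have hx : x ∈ Submodule.span ρ.fieldRange (Set.range θ) := by
      rw [hspan]
      trivial
    rw [Submodule.mem_span_range_iff_exists_fun] at hx
    obtain ⟨c, hc⟩ := hx
    choose a ha using fun i => (c i).2
    refine ⟨a, ?_⟩
    rw [← hc]
    refine Finset.sum_congr rfl fun i _ => ?_
    rw [Algebra.smul_def]
    congr 1
    exact (ha i).symm
  have hval : ∀ x : E, ∃ a : Fin T → E, x = ∑ i, ρ (a i) * θ i ∧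
      ∃ j, (∀ i, O.valuation (a i) ≤ O.valuation (a j)) ∧
      O.valuation x = O.valuation (ρ (a j)) := by
    intro x
    obtain ⟨a, ha⟩ := hex x
    obtain ⟨j, hj, hv⟩ := val_sum hρ hT θ hθ hi a
    exact ⟨a, ha, j, hj, by rw [ha, hv]⟩
  -- uniformizers
  have huni : ∀ u : O, Irreducible u → O.valuation (ρ u) = O.valuation (u : E) := by
    intro u hu
    have hu1 : O.valuation (u : E) < 1 := by
      rw [← O.valuation_lt_one_iff, hu.maximalIdeal_eq]
      exact Ideal.mem_span_singleton_self u
    refine le_antisymm (val_lt (rho_lt hρ hu1) u hd hu) ?_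
    obtain ⟨a, -, j, -, hv⟩ := hval (u : E)
    have h1 : O.valuation (a j) ≤ 1 := by
      rw [← rho_le hρ, ← hv]
      exact hu1.le
    have h2 : O.valuation (a j) < 1 := by
      rcases h1.lt_or_eq with h | h
      · exact h
      · exfalso
        have h3 : a j ≠ 0 := by
          intro h0
          rw [h0, map_zero] at h
          exact zero_ne_one h
        have h4 : O.valuation (a j)⁻¹ ≤ 1 := by rw [map_inv₀, h, inv_one]
        rw [← rho_le hρ, map_inv₀, map_inv₀, ← hv] at h4
        have h5 : (0 : O.ValueGroup) < O.valuation (u : E) := by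
          rw [zero_lt_iff, hv]
          exact (Valuation.ne_zero_iff _).2 ((map_ne_zero ρ).2 h3)
        exact absurd h4 (not_le.2 ((one_lt_inv₀ h5).2 hu1))
    have h3 := val_lt h2 u hd hu
    rw [O.valuation_le_iff] at h3
    obtain ⟨c, hc⟩ := h3
    rw [hv, ← hc, map_mul, map_mul]
    exact mul_le_of_le_one_left' ((rho_le hρ).2 (O.valuation_le_one c))
  refine ⟨hd, hk, hρ, ?_, ?_⟩
  · intro u hu
    have h1 := huni u hu
    have h2 : ρ u ∈ O := (hρ _).2 u.2
    refine ⟨⟨ρ u, h2⟩, rfl, ?_⟩
    rw [O.valuation_eq_iff] at h1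
    obtain ⟨e, he⟩ := h1
    have h3 : Associated u (⟨ρ u, h2⟩ : O) := by
      refine ⟨e, ?_⟩
      apply Subtype.ext
      rw [mul_comm]
      exact he
    exact h3.irreducible hu
  · intro O₁ _ _ h₁
    -- `O` is contained in `O₁`
    have hle : O ≤ O₁ := by
      intro x hx
      let R : Subring E := O.toSubring.map (ρ : E →+* E)
      have hR : ∀ y, y ∈ O → ρ y ∈ R := fun y hy => ⟨y, hy, rfl⟩
      let S : Subalgebra R E :=
        { O.toSubring with
          algebraMap_mem' := by
            rintro ⟨y, z, hz, rfl⟩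
            exact (hρ z).2 hz }
      have hfg : (Subalgebra.toSubmodule S).FG := by
        refine ⟨(Set.finite_range θ).toFinset, ?_⟩
        rw [Set.Finite.coe_toFinset]
        apply le_antisymm
        · rw [Submodule.span_le]
          rintro _ ⟨i, rfl⟩
          exact hθ i
        · intro y hy
          have hy' : y ∈ O := hy
          obtain ⟨a, ha, j, hj, hv⟩ := hval y
          have h2 : O.valuation (a j) ≤ 1 := by
            rw [← rho_le hρ, ← hv, O.valuation_le_one_iff]
            exact hy'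
          rw [ha]
          refine Submodule.sum_mem _ fun i _ => ?_
          have h3 : a i ∈ O := (O.valuation_le_one_iff _).1 ((hj i).trans h2)
          have h4 : ρ (a i) * θ i = (⟨ρ (a i), hR _ h3⟩ : R) • θ i := rfl
          rw [h4]
          exact Submodule.smul_mem _ _ (Submodule.subset_span ⟨i, rfl⟩)
      have hint : IsIntegral R x := IsIntegral.of_mem_of_fg S hfg x hx
      obtain ⟨p, hp, hp0⟩ := hint
      have hRO : ∀ y, y ∈ R → y ∈ O₁ := by
        rintro _ ⟨z, hz, rfl⟩
        exact (h₁ z).2 hz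
      let i : R →+* O₁ :=
        { toFun := fun y => ⟨y, hRO y y.2⟩
          map_one' := rfl
          map_mul' := fun _ _ => rfl
          map_zero' := rfl
          map_add' := fun _ _ => rfl }
      have h5 : IsIntegral O₁ x := by
        refine ⟨p.map i, hp.map i, ?_⟩
        rw [Polynomial.eval₂_map]
        exact hp0
      obtain ⟨y, hy⟩ := IsIntegrallyClosed.isIntegral_iff.1 h5
      rw [← hy]
      exact y.2
    rcases O.eq_self_or_eq_top_of_le hle with h | h
    · exact h.symm
    · exfalso
      obtain ⟨ϖ, hϖ⟩ := IsDiscreteValuationRing.exists_irreducible O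
      have h6 : ((ϖ : E))⁻¹ ∈ O := by
        rw [← h₁, h]
        trivial
      apply hϖ.not_isUnit
      refine isUnit_iff_exists_inv.2 ⟨⟨_, h6⟩, ?_⟩
      apply Subtype.ext
      change (ϖ : E) * (ϖ : E)⁻¹ = 1
      refine mul_inv_cancel₀ fun h0 => hϖ.ne_zero ?_
      exact Subtype.ext h0

end Pool.Agent.Lib.MP_16285c_agS

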