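import Pool.Agent.Lib.MP_16285c_agS.Dgv.Spec

/-!
# A criterion for discrete valuation rings (helper76)

The localization at the prime ideal `𝔮` inside the fraction field is a Noetherian local domain whose maximal
ideal is generated by the image of `R`.
-/

set_option autoImplicit false

namespace Pool.Agent.Lib.MP_16285c_agS

namespace DgvLocVM

open IsLocalRing nonZeroDivisors

variable {A E : Type} [CommRing A] [IsDomain A] [Field E] [Algebra A E] [IsFractionRing A E]
  (𝔮 : Ideal A) [𝔮.IsPrime] (R : A)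

theorem hS (𝔮 : Ideal A) [𝔮.IsPrime] : 𝔮.primeCompl ≤ nonZeroDivisors A := Ideal.primeCompl_le_nonZeroDivisors 𝔮

/-- The localization as a subalgebra of the fraction field. -/
noncomputable abbrev B (E : Type) [Field E] [Algebra A E] [IsFractionRing A E] (𝔮 : Ideal A) [𝔮.IsPrime] : Subalgebra A E :=
  Localization.subalgebra.ofField E 𝔮.primeCompl (hS 𝔮)

omit [IsDomain A] [𝔮.IsPrime] in
theorem ne0 (d : A) (hd : d ∉ 𝔮) : algebraMap A E d ≠ 0 := by
  intro h
  have : d = 0 := (IsFractionRing.injective A E) (by rw [h, map_zero])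
  exact hd (this ▸ 𝔮.zero_mem)

theorem memB (x : E) : x ∈ B E 𝔮 ↔ ∃ n d : A, d ∉ 𝔮 ∧ x * algebraMap A E d = algebraMap A E n := by
  constructor
  · rintro ⟨n, d, hd, rfl⟩
    refine ⟨n, d, hd, ?_⟩
    rw [mul_assoc, inv_mul_cancel₀ (ne0 𝔮 d hd), mul_one]
  · rintro ⟨n, d, hd, h⟩
    refine ⟨n, d, hd, ?_⟩
    rw [← h, mul_assoc, mul_inv_cancel₀ (ne0 𝔮 d hd), mul_one]

theorem dvr [IsNoetherianRing A] (hR : R ∈ 𝔮) (hR0 : R ≠ 0) (h : ∀ g ∈ 𝔮, ∃ s, s ∉ 𝔮 ∧ R ∣ s * g) :
    IsDiscreteValuationRing (B E 𝔮) := by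
  have hloc : IsLocalization.AtPrime (B E 𝔮) 𝔮 := Localization.subalgebra.isLocalization_ofField E 𝔮.primeCompl (hS 𝔮)
  have hlr : IsLocalRing (B E 𝔮) := IsLocalization.AtPrime.isLocalRing (B E 𝔮) 𝔮
  have hN : IsNoetherianRing (B E 𝔮) := IsLocalization.isNoetherianRing 𝔮.primeCompl (B E 𝔮) inferInstance
  have hmap : 𝔮.map (algebraMap A (B E 𝔮)) = maximalIdeal (B E 𝔮) := IsLocalization.AtPrime.map_eq_maximalIdeal 𝔮 (B E 𝔮)
  have hinj : Function.Injective (algebraMap A (B E 𝔮)) := by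
    intro a b hab
    apply IsFractionRing.injective A E
    have := congrArg (Subtype.val) hab
    exact this
  have hRm : algebraMap A (B E 𝔮) R ∈ maximalIdeal (B E 𝔮) := by
    rw [← hmap]; exact Ideal.mem_map_of_mem _ hR
  have hR0' : algebraMap A (B E 𝔮) R ≠ 0 := by
    intro h0
    exact hR0 (hinj (by rw [h0, map_zero]))
  have hnf : ¬ IsField (B E 𝔮) := by
    intro hf
    have := isField_iff_maximalIdeal_eq.mp hf
    rw [this] at hRm
    exact hR0' (by simpa using hRm)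
  have hpr : (maximalIdeal (B E 𝔮)).IsPrincipal := by
    refine ⟨⟨algebraMap A (B E 𝔮) R, ?_⟩⟩
    apply le_antisymm
    · rw [← hmap, Ideal.map_le_iff_le_comap]
      intro g hg
      obtain ⟨s, hs, c, hc⟩ := h g hg
      rw [Ideal.mem_comap]
      have hu : IsUnit (algebraMap A (B E 𝔮) s) := IsLocalization.map_units (B E 𝔮) (⟨s, hs⟩ : 𝔮.primeCompl)
      have h1 : algebraMap A (B E 𝔮) s * algebraMap A (B E 𝔮) g ∈ Ideal.span {algebraMap A (B E 𝔮) R} := by
        rw [← map_mul, hc, map_mul]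
        exact Ideal.mul_mem_right _ _ (Ideal.mem_span_singleton_self _)
      exact (Ideal.unit_mul_mem_iff_mem _ hu).mp h1
    · exact (Ideal.span_singleton_le_iff_mem _).mpr hRm
  exact ((IsDiscreteValuationRing.TFAE (B E 𝔮) hnf).out 4 0).mp hpr

end DgvLocVM

open DgvLocVM in
/-- **LocV**: a criterion for discrete valuation rings. -/
theorem tLocV : StmtLocV := by
  intro A E _ _ _ _ _ _ 𝔮 _ R hR hR0 h
  have hdvr : IsDiscreteValuationRing (B E 𝔮) := dvr 𝔮 R hR hR0 h
  let O : ValuationSubring E :=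
    { (B E 𝔮).toSubring with
      mem_or_inv_mem' := by
        intro x
        rcases ValuationRing.isInteger_or_isInteger (B E 𝔮) x with ⟨y, hy⟩ | ⟨y, hy⟩
        · left
          rw [← hy]; exact y.2
        · right
          rw [← hy]; exact y.2 }
  have hO : ∀ x : E, x ∈ O ↔ ∃ n d : A, d ∉ 𝔮 ∧ x * algebraMap A E d = algebraMap A E n := fun x => memB 𝔮 x
  let e : (B E 𝔮) ≃+* O :=
    { toFun := fun x => ⟨x.1, x.2⟩
      invFun := fun x => ⟨x.1, x.2⟩
      left_inv := fun _ => rfl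
      right_inv := fun _ => rfl
      map_mul' := fun _ _ => rfl
      map_add' := fun _ _ => rfl }
  refine ⟨O, IsDiscreteValuationRing.RingEquivClass.isDiscreteValuationRing e, hO, fun x => ⟨fun hx => ?_, ?_⟩⟩
  · obtain ⟨n, d, hd, hx'⟩ := (hO x).mp ((O.valuation_le_one_iff x).mp hx.le)
    by_cases hn : n ∈ 𝔮
    · exact ⟨n, d, hn, hd, hx'⟩
    · exfalso
      have hn0 : algebraMap A E n ≠ 0 := ne0 𝔮 n hn
      have hx0 : x ≠ 0 := by
        rintro rfl
        rw [zero_mul] at hx'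
        exact hn0 hx'.symm
      have hinv : x⁻¹ ∈ O := (hO _).mpr ⟨d, n, hn, by rw [← hx', ← mul_assoc, inv_mul_cancel₀ hx0, one_mul]⟩
      have h1 := (O.valuation_le_one_iff x⁻¹).mpr hinv
      have h2 : O.valuation x * O.valuation x⁻¹ = 1 := by
        rw [← map_mul, mul_inv_cancel₀ hx0, map_one]
      have h3 : O.valuation x * O.valuation x⁻¹ < 1 := mul_lt_one_of_lt_of_le hx h1
      exact absurd h2 h3.ne
  · rintro ⟨n, d, hn, hd, hx'⟩
    have hle : O.valuation x ≤ 1 := (O.valuation_le_one_iff x).mpr ((hO x).mpr ⟨n, d, hd, hx'⟩)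
    refine lt_of_le_of_ne hle fun h1 => ?_
    have hx0 : x ≠ 0 := by
      rintro rfl
      rw [map_zero] at h1
      exact zero_ne_one h1
    have hinv : O.valuation x⁻¹ ≤ 1 := by rw [map_inv₀, h1, inv_one]
    obtain ⟨n', d', hd', hx''⟩ := (hO _).mp ((O.valuation_le_one_iff x⁻¹).mp hinv)
    have h4 : algebraMap A E (d' * d) = algebraMap A E (n' * n) := by
      rw [map_mul, map_mul, ← hx'', ← hx']
      field_simp
    have h5 : d' * d = n' * n := IsFractionRing.injective A E h4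
    have h6 : d' * d ∈ 𝔮 := h5 ▸ 𝔮.mul_mem_left _ hn
    rcases Ideal.IsPrime.mem_or_mem inferInstance h6 with h | h
    · exact hd' h
    · exact hd h

end Pool.Agent.Lib.MP_16285c_agS
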