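import Pool.Agent.Lib.MP_16285c_agS.Dgv.CanS
import Pool.Agent.Lib.MP_16285c_agS.Dgv.DegV
import Pool.Agent.Lib.MP_16285c_agS.Dgv.Ctr
import Pool.Agent.Lib.MP_16285c_agS.Dgv.Et
import Pool.Agent.Lib.MP_16285c_agS.Dgv.LocV
import Pool.Agent.Lib.MP_16285c_agN.Rk1
import Pool.Agent.Lib.MP_16285c_agN.Rk2
import Pool.Agent.Lib.MP_16285c_agN.Rk3
import Pool.Agent.Lib.MP_16285c_agN.G1

/-!
# Section E: closed forms
-/

set_option autoImplicit false

namespace Pool.Agent.Lib.MP_16285c_agS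

open Pool.Agent.Lib.MP_16285c_agN

/-- A curve of full residue degree is a totally invariant discrete valuation ring. -/
theorem cDgv : StmtDgv := tDgv (tCtr tRk1 tRk2 (tRk3 tRk2)) tEt tLocV tDegV

/-- The interface with the assembly. -/
theorem cCanS (h : StmtCan) : StmtCanS := tCanS h cDgv tG1

end Pool.Agent.Lib.MP_16285c_agS
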