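import Pool.Agent.Lib.MP_16285c_agS.Dgv.Spec

/-!
# A curve of full residue degree is a totally invariant discrete valuation ring
-/

set_option autoImplicit false

namespace Pool.Agent.Lib.MP_16285c_agS.DgvDgvM

open Pool.Agent.Lib.MP_16285c_agN

section res

variable {S E L : Type} [CommRing S] [Field E] [Field L] (f : S →+* E) (g : S →+* L)

/-- `u` is the residue of `x`. -/
def Res (x : E) (u : L) : Prop := ∃ N D : S, g D ≠ 0 ∧ x * f D = f N ∧ u * g D = g N

variable {f g}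

theorem res_of (G : S) : Res f g (f G) (g G) :=
  ⟨G, 1, by simp, by simp, by simp⟩

theorem res_unique (h : ∀ s, f s = 0 → g s = 0) {x : E} {u u' : L} (h1 : Res f g x u)
    (h2 : Res f g x u') : u = u' := by
  obtain ⟨N, D, hD, ha, hb⟩ := h1
  obtain ⟨N', D', hD', ha', hb'⟩ := h2
  have h3 : f (N * D' - N' * D) = 0 := by
    rw [map_sub, map_mul, map_mul, ← ha, ← ha']
    ring
  have h4 := h _ h3
  rw [map_sub, map_mul, map_mul, ← hb, ← hb'] at h4
  have h5 : (u - u') * (g D * g D') = 0 := by linear_combination h4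
  rcases mul_eq_zero.1 h5 with h6 | h6
  · exact sub_eq_zero.1 h6
  · exact absurd h6 (mul_ne_zero hD hD')

theorem res_add {x x' : E} {u u' : L} (h1 : Res f g x u) (h2 : Res f g x' u') :
    Res f g (x + x') (u + u') := by
  obtain ⟨N, D, hD, ha, hb⟩ := h1
  obtain ⟨N', D', hD', ha', hb'⟩ := h2
  refine ⟨N * D' + N' * D, D * D', by rw [map_mul]; exact mul_ne_zero hD hD', ?_, ?_⟩
  · simp only [map_mul, map_add, ← ha, ← ha']
    ring
  · simp only [map_mul, map_add, ← hb, ← hb']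
    ring

theorem res_mul {x x' : E} {u u' : L} (h1 : Res f g x u) (h2 : Res f g x' u') :
    Res f g (x * x') (u * u') := by
  obtain ⟨N, D, hD, ha, hb⟩ := h1
  obtain ⟨N', D', hD', ha', hb'⟩ := h2
  refine ⟨N * N', D * D', by rw [map_mul]; exact mul_ne_zero hD hD', ?_, ?_⟩
  · simp only [map_mul, ← ha, ← ha']
    ring
  · simp only [map_mul, ← hb, ← hb']
    ring

theorem res_zero : Res f g 0 0 := by
  have := res_of (f := f) (g := g) 0
  rwa [map_zero, map_zero] at this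

theorem res_sum {ι : Type} (s : Finset ι) (x : ι → E) (u : ι → L)
    (h : ∀ i ∈ s, Res f g (x i) (u i)) : Res f g (∑ i ∈ s, x i) (∑ i ∈ s, u i) := by
  classical
  induction s using Finset.induction_on with
  | empty => simpa using res_zero
  | insert a s ha ih =>
    rw [Finset.sum_insert ha, Finset.sum_insert ha]
    exact res_add (h a (Finset.mem_insert_self a s))
      (ih fun i hi => h i (Finset.mem_insert_of_mem hi))

theorem res_div (h : ∀ s, f s = 0 → g s = 0) {a c x : E} {b d u : L} (h1 : Res f g a b)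
    (h2 : Res f g c d) (hb : b ≠ 0) (hx : x * a = c) (hu : u * b = d) : Res f g x u := by
  obtain ⟨N, D, hD, ha, hb'⟩ := h1
  obtain ⟨N', D', hD', hc, hd⟩ := h2
  have hN : g N ≠ 0 := by
    rw [← hb']
    exact mul_ne_zero hb hD
  have hfD : f D ≠ 0 := fun h0 => hD (h _ h0)
  refine ⟨N' * D, D' * N, by rw [map_mul]; exact mul_ne_zero hD' hN, ?_, ?_⟩
  · simp only [map_mul, ← ha, ← hc, ← hx]
    ring
  · simp only [map_mul, ← hb', ← hd, ← hu]
    ring

theorem res_surj (h : ∀ s, f s = 0 → g s = 0) (hg : ∀ u : L, ∃ N D : S, g D ≠ 0 ∧ u * g D = g N)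
    (u : L) : ∃ x, Res f g x u := by
  obtain ⟨N, D, hD, hu⟩ := hg u
  have hfD : f D ≠ 0 := fun h0 => hD (h _ h0)
  exact ⟨f N / f D, N, D, hD, div_mul_cancel₀ _ hfD, hu⟩

end res

section val

variable {K E L : Type} [Field K] [Field E] [Field L] [Algebra K E] [Algebra K L]
  {S : Type} [CommRing S] {f : S →+* E} {g : S →+* L}

/-- The main argument. -/
theorem main (hfg : ∀ s, f s = 0 → g s = 0)
    (hg : ∀ u : L, ∃ N D : S, g D ≠ 0 ∧ u * g D = g N) (ρ : E →ₐ[K] E) (ρb : L →ₐ[K] L)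
    (hc : ∀ c : K, ∃ s : S, f s = algebraMap K E c)
    (hcomp : ∀ G : S, Res f g (ρ (f G)) (ρb (g G))) (hfin : Module.Finite ρ.fieldRange E)
    (hT : Module.finrank ρ.fieldRange E ≤ Module.finrank ρb.fieldRange L)
    (hdeg : StmtDegV) (O : ValuationSubring E) (hd : IsDiscreteValuationRing O)
    (hO : ∀ x : E, x ∈ O ↔ ∃ N D : S, g D ≠ 0 ∧ x * f D = f N)
    (hv : ∀ x : E, O.valuation x < 1 ↔ ∃ N D : S, g N = 0 ∧ g D ≠ 0 ∧ x * f D = f N) :
    InTI K E ρ O := by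
  have hres : ∀ x ∈ O, ∃ u, Res f g x u := by
    intro x hx
    obtain ⟨N, D, hD, h1⟩ := (hO x).1 hx
    exact ⟨g N / g D, N, D, hD, h1, div_mul_cancel₀ _ hD⟩
  have hmem : ∀ x u, Res f g x u → x ∈ O := by
    rintro x u ⟨N, D, hD, h1, -⟩
    exact (hO x).2 ⟨N, D, hD, h1⟩
  have hlt : ∀ x u, Res f g x u → (O.valuation x < 1 ↔ u = 0) := by
    intro x u hx
    rw [hv]
    constructor
    · rintro ⟨N, D, hN, hD, h1⟩
      exact res_unique hfg hx ⟨N, D, hD, h1, by rw [hN, zero_mul]⟩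
    · rintro rfl
      obtain ⟨N, D, hD, h1, h2⟩ := hx
      exact ⟨N, D, by rw [← h2, zero_mul], hD, h1⟩
  have hρres : ∀ x u, Res f g x u → Res f g (ρ x) (ρb u) := by
    rintro x u ⟨N, D, hD, h1, h2⟩
    refine res_div hfg (hcomp D) (hcomp N) ?_ ?_ ?_
    · exact (map_ne_zero ρb).2 hD
    · rw [← map_mul, h1]
    · rw [← map_mul, h2]
  have hρ : ∀ x : E, ρ x ∈ O ↔ x ∈ O := by
    intro x
    constructor
    · intro hx
      by_contra hc
      have h1 : O.valuation x⁻¹ < 1 := by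
        rw [map_inv₀]
        refine inv_lt_one_of_one_lt₀ ?_
        rw [← O.valuation_le_one_iff] at hc
        exact not_le.1 hc
      have h2 : x⁻¹ ∈ O := (O.valuation_le_one_iff _).1 h1.le
      obtain ⟨u, hu⟩ := hres _ h2
      have h3 : u = 0 := (hlt _ _ hu).1 h1
      rw [h3] at hu
      have h4 := hρres _ _ hu
      rw [map_zero] at h4
      have h5 := (hlt _ _ h4).2 rfl
      have h6 : x ≠ 0 := fun h0 => hc (h0 ▸ O.zero_mem)
      have h7 : O.valuation (ρ x) * O.valuation (ρ x⁻¹) = 1 := by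
        rw [← map_mul, ← map_mul, mul_inv_cancel₀ h6, map_one, map_one]
      have h8 : O.valuation (ρ x) ≤ 1 := (O.valuation_le_one_iff _).2 hx
      have h9 : O.valuation (ρ x) * O.valuation (ρ x⁻¹) < 1 :=
        lt_of_le_of_lt (mul_le_of_le_one_left' h8) h5
      exact absurd h7 h9.ne
    · intro hx
      obtain ⟨u, hu⟩ := hres x hx
      exact hmem _ _ (hρres _ _ hu)
  have hcon : ∀ c : K, algebraMap K E c ∈ O := by
    intro c
    obtain ⟨s, hs⟩ := hc c
    rw [← hs]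
    exact hmem _ _ (res_of s)
  obtain ⟨θb, hθb⟩ := exists_linearIndependent_of_le_finrank hT
  choose θ hθ using fun i => res_surj hfg hg (θb i)
  refine hdeg K E ρ O hd hcon hρ _ (Nat.one_le_iff_ne_zero.2 Module.finrank_pos.ne') rfl θ
    (fun i => hmem _ _ (hθ i)) ?_
  intro a ha hsum
  choose b hb using fun i => hres (a i) (ha i)
  have h1 : Res f g (∑ i, ρ (a i) * θ i) (∑ i, ρb (b i) * θb i) :=
    res_sum _ _ _ fun i _ => res_mul (hρres _ _ (hb i)) (hθ i)
  have h2 : ∑ i, ρb (b i) * θb i = 0 := (hlt _ _ h1).1 hsum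
  have h3 : ∀ i, (⟨ρb (b i), ⟨b i, rfl⟩⟩ : ρb.fieldRange) = 0 := by
    refine Fintype.linearIndependent_iff.1 hθb (fun i => ⟨ρb (b i), ⟨b i, rfl⟩⟩) ?_
    exact h2
  intro i
  refine (hlt _ _ (hb i)).2 ?_
  have h4 : ρb (b i) = 0 := congrArg Subtype.val (h3 i)
  exact (map_eq_zero ρb).1 h4

end val

section poly

variable {K : Type} [Field K]

theorem fsE_up (G : Pl 2 K) : MvPolynomial.finSuccEquiv K 2 (up K G) = Polynomial.C G := by
  induction G using MvPolynomial.induction_on with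
  | C a =>
    rw [up, MvPolynomial.rename_C, MvPolynomial.finSuccEquiv_apply]
    simp
  | add p q hp hq => rw [map_add, map_add, hp, hq, map_add]
  | mul_X p i hp =>
    rw [map_mul, map_mul, hp, map_mul]
    congr 1
    rw [up, MvPolynomial.rename_X, MvPolynomial.finSuccEquiv_X_succ]

/-- No multiple of `P` lies in `K[x₁, x₂]`. -/
theorem up_mem {P : Pl 3 K} (hP : MonZ P) (hp : (Ideal.span {P}).IsPrime) {G : Pl 2 K}
    (hG : up K G ∈ Ideal.span {P}) : G = 0 := by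
  by_contra h0
  rw [Ideal.mem_span_singleton] at hG
  have h1 : MvPolynomial.finSuccEquiv K 2 P ∣ Polynomial.C G := by
    rw [← fsE_up]
    exact map_dvd (MvPolynomial.finSuccEquiv K 2) hG
  have h2 : (MvPolynomial.finSuccEquiv K 2 P).natDegree = 0 := by
    have := Polynomial.natDegree_le_of_dvd h1 (by simpa using h0)
    rw [Polynomial.natDegree_C] at this
    omega
  have h3 : MvPolynomial.finSuccEquiv K 2 P = 1 :=
    (Polynomial.Monic.natDegree_eq_zero hP).1 h2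
  have h4 : P = 1 := by
    apply (MvPolynomial.finSuccEquiv K 2).injective
    rw [h3, map_one]
  apply hp.ne_top
  rw [h4, Ideal.span_singleton_one]

end poly

end Pool.Agent.Lib.MP_16285c_agS.DgvDgvM

namespace Pool.Agent.Lib.MP_16285c_agS

open Pool.Agent.Lib.MP_16285c_agN DgvDgvM

/-- A curve of full residue degree is a totally invariant discrete valuation ring. -/
theorem tDgv (hCtr : StmtCtr) (hEt : StmtEt) (hLoc : StmtLocV) (hDeg : StmtDegV) : StmtDgv := by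
  intro K _ P 𝔭 _ hPp hP hP𝔭 hdP hrk E _ _ _ _ _ L _ _ _ _ _ σ ρ ρb hσ hσb hfin hT
  obtain ⟨⟨R, hR, hRG⟩, hi⟩ := hCtr K P 𝔭 hP hP𝔭 hrk
  have hRup : up K R ∈ 𝔭 := (hRG R).2 dvd_rfl
  refine ⟨⟨R, hR.ne_zero, hRup⟩, hi, ?_⟩
  have hle : Ideal.span {P} ≤ 𝔭 := by
    rw [Ideal.span_singleton_le_iff_mem]
    exact hP𝔭
  let f : Pl 3 K →+* E := (algebraMap (CR (Ideal.span {P})) E).comp (Ideal.Quotient.mk _)
  let g : Pl 3 K →+* L := (algebraMap (CR 𝔭) L).comp (Ideal.Quotient.mk _)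
  have hf0 : ∀ G, f G = 0 ↔ G ∈ Ideal.span {P} := by
    intro G
    change algebraMap (CR (Ideal.span {P})) E (Ideal.Quotient.mk _ G) = 0 ↔ _
    rw [FaithfulSMul.algebraMap_eq_zero_iff, Ideal.Quotient.eq_zero_iff_mem]
  have hg0 : ∀ G, g G = 0 ↔ G ∈ 𝔭 := by
    intro G
    change algebraMap (CR 𝔭) L (Ideal.Quotient.mk _ G) = 0 ↔ _
    rw [FaithfulSMul.algebraMap_eq_zero_iff, Ideal.Quotient.eq_zero_iff_mem]
  have hfg : ∀ s, f s = 0 → g s = 0 := fun s hs => (hg0 s).2 (hle ((hf0 s).1 hs))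
  -- the valuation ring
  let 𝔮 : Ideal (CR (Ideal.span {P})) := 𝔭.map (Ideal.Quotient.mk (Ideal.span {P}))
  have hq : 𝔮.IsPrime := Ideal.map_isPrime_of_surjective Ideal.Quotient.mk_surjective
    (by rw [Ideal.mk_ker]; exact hle)
  have hmq : ∀ G : Pl 3 K, cl (Ideal.span {P}) G ∈ 𝔮 ↔ G ∈ 𝔭 := fun G =>
    Ideal.mem_quotient_iff_mem hle
  have hstep : ∀ x ∈ 𝔮, ∃ s, s ∉ 𝔮 ∧ cl (Ideal.span {P}) (up K R) ∣ s * x := by
    intro x hx
    obtain ⟨G, rfl⟩ := Ideal.Quotient.mk_surjective x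
    obtain ⟨s, A, B, hs, h1⟩ := hEt K P 𝔭 R hP hP𝔭 hdP hRG G ((hmq G).1 hx)
    refine ⟨cl _ s, fun h => hs ((hmq s).1 h), cl _ A, ?_⟩
    have h2 : Ideal.Quotient.mk (Ideal.span {P}) P = 0 :=
      Ideal.Quotient.eq_zero_iff_mem.2 (Ideal.mem_span_singleton_self P)
    change cl _ s * cl _ G = cl _ (up K R) * cl _ A
    rw [← map_mul, h1, map_add, map_mul, map_mul, h2, zero_mul, add_zero]
  have hR0 : cl (Ideal.span {P}) (up K R) ≠ 0 := by
    intro h0
    exact hR.ne_zero (up_mem hP hPp (Ideal.Quotient.eq_zero_iff_mem.1 h0))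
  obtain ⟨O, hd, hO, hv⟩ := hLoc (CR (Ideal.span {P})) E 𝔮 (cl _ (up K R)) ((hmq _).2 hRup) hR0
    hstep
  have hO' : ∀ x : E, x ∈ O ↔ ∃ N D : Pl 3 K, g D ≠ 0 ∧ x * f D = f N := by
    intro x
    rw [hO x]
    constructor
    · rintro ⟨n, d, hd, h1⟩
      obtain ⟨N, rfl⟩ := Ideal.Quotient.mk_surjective n
      obtain ⟨D, rfl⟩ := Ideal.Quotient.mk_surjective d
      exact ⟨N, D, fun h => hd ((hmq D).2 ((hg0 D).1 h)), h1⟩
    · rintro ⟨N, D, hD, h1⟩
      exact ⟨cl _ N, cl _ D, fun h => hD ((hg0 D).2 ((hmq D).1 h)), h1⟩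
  have hv' : ∀ x : E, O.valuation x < 1 ↔
      ∃ N D : Pl 3 K, g N = 0 ∧ g D ≠ 0 ∧ x * f D = f N := by
    intro x
    rw [hv x]
    constructor
    · rintro ⟨n, d, hn, hd, h1⟩
      obtain ⟨N, rfl⟩ := Ideal.Quotient.mk_surjective n
      obtain ⟨D, rfl⟩ := Ideal.Quotient.mk_surjective d
      exact ⟨N, D, (hg0 N).2 ((hmq N).1 hn), fun h => hd ((hmq D).2 ((hg0 D).1 h)), h1⟩
    · rintro ⟨N, D, hN, hD, h1⟩
      exact ⟨cl _ N, cl _ D, (hmq N).2 ((hg0 N).1 hN), fun h => hD ((hg0 D).2 ((hmq D).1 h)), h1⟩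
  have hfrac : ∀ u : L, ∃ N D : Pl 3 K, g D ≠ 0 ∧ u * g D = g N := by
    intro u
    obtain ⟨n, d, hd, hu⟩ := IsFractionRing.div_surjective (A := CR 𝔭) u
    obtain ⟨N, rfl⟩ := Ideal.Quotient.mk_surjective n
    obtain ⟨D, rfl⟩ := Ideal.Quotient.mk_surjective d
    have h1 : g D ≠ 0 := by
      change algebraMap (CR 𝔭) L (Ideal.Quotient.mk _ D) ≠ 0
      rw [Ne, FaithfulSMul.algebraMap_eq_zero_iff]
      exact nonZeroDivisors.ne_zero hd
    refine ⟨N, D, h1, ?_⟩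
    rw [← hu]
    exact div_mul_cancel₀ _ h1
  have hcomp : ∀ G : Pl 3 K, Res f g (ρ (f G)) (ρb (g G)) := by
    intro G
    have h1 : Rsd 𝔭 L (fr G) (g G) :=
      ⟨G, 1, fun h => (‹𝔭.IsPrime›).ne_top ((Ideal.eq_top_iff_one _).2 h), by simp, by simp [g]⟩
    have h2 : Rsd (Ideal.span {P}) E (fr G) (f G) :=
      ⟨G, 1, fun h => hPp.ne_top ((Ideal.eq_top_iff_one _).2 h), by simp, by simp [f]⟩
    obtain ⟨N, D, hD, h3, h4⟩ := hσb _ _ h1
    obtain ⟨N', D', hD', h5, h6⟩ := hσ _ _ h2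
    refine ⟨N, D, fun h => hD ((hg0 D).1 h), ?_, h4⟩
    have h7 : N * D' = N' * D := by
      have h7' : fr N * fr D' = fr N' * fr D := by
        rw [← h3, ← h5]
        ring
      apply IsFractionRing.injective (Pl 3 K) (RF 3 K)
      rw [map_mul, map_mul]
      exact h7'
    have h8 : f D' ≠ 0 := fun h => hD' ((hf0 D').1 h)
    apply mul_right_cancel₀ h8
    have h9 : f N * f D' = f N' * f D := by rw [← map_mul, h7, map_mul]
    rw [h9]
    have h10 : ρ (f G) * f D' = f N' := h6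
    rw [← h10]
    ring
  have hcon : ∀ c : K, ∃ s : Pl 3 K, f s = algebraMap K E c := by
    intro c
    refine ⟨MvPolynomial.C c, ?_⟩
    rw [IsScalarTower.algebraMap_apply K (CR (Ideal.span {P})) E]
    rfl
  refine ⟨O, main hfg hfrac ρ ρb hcon hcomp hfin hT hDeg O hd hO' hv', ?_, ?_⟩
  · intro G
    exact (hO' _).2 ⟨G, 1, by simp, by simp [f, xi]⟩
  · intro G
    rw [hv']
    constructor
    · rintro ⟨N, D, hN, hD, h1⟩
      have h2 : f (G * D - N) = 0 := by
        rw [map_sub, map_mul]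
        exact sub_eq_zero.2 h1
      have h3 := hfg _ h2
      rw [map_sub, hN, sub_zero, map_mul] at h3
      rcases mul_eq_zero.1 h3 with h4 | h4
      · exact (hg0 G).1 h4
      · exact absurd h4 hD
    · intro hG
      exact ⟨G, 1, (hg0 G).2 hG, by simp, by simp [f, xi]⟩

end Pool.Agent.Lib.MP_16285c_agS

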