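import Pool.Agent.Lib.MP_16285c_agS.Defs
import Pool.Agent.Lib.MP_16285c_agN.SpecG

/-!
# Curves on a surface as discrete valuation rings: statements (section E of note 4871)

Notation: see `MP_16285c_agN/Defs.lean`. The ambient ring is `Pl 3 K = K[z, x₁, x₂]` (`z = X 0`, `x₁ = X 1`, `x₂ = X 2`), the surface is `P = 0`,
`P` monic in `z`, `E` its function field; `𝔭` is a prime ideal of `Pl 3 K` which contains `P` and not `∂P/∂z`: a curve on the surface. Every lemma is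
a `Prop` with its complete proof in the docstring; the files proving them are independent: used statements are hypotheses. File `Dgv/X.lean`,
`theorem tX : StmtX` (or `theorem tX : StmtY → StmtX`), namespace `Pool.Agent.Lib.MP_16285c_agS`, auxiliary lemmas in the namespace
`Pool.Agent.Lib.MP_16285c_agS.DgvXM`.
-/

set_option autoImplicit false

namespace Pool.Agent.Lib.MP_16285c_agS

open Pool.Agent.Lib.MP_16285c_agN

/-- `P` is monic in `z = X 0`. -/
def MonZ {K : Type} [Field K] (P : Pl 3 K) : Prop := (MvPolynomial.finSuccEquiv K 2 P).Monic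

/-- The inclusion of `K[x₁, x₂]` into `K[z, x₁, x₂]`. -/
noncomputable def up (K : Type) [Field K] : Pl 2 K →ₐ[K] Pl 3 K := MvPolynomial.rename Fin.succ

/-- The restriction of a polynomial to the subvariety of `𝔮`, in the function field `E` of the subvariety. -/
noncomputable def xi {K : Type} [Field K] {n : ℕ} (𝔮 : Ideal (Pl n K)) (E : Type) [Field E] [Algebra (CR 𝔮) E] (G : Pl n K) : E :=
  algebraMap (CR 𝔮) E (cl 𝔮 G)

/-- (Ctr) The contraction to `K[x₁, x₂]`. PROOF (uses `StmtRk1`, `StmtRk2`, `StmtRk3`). `𝔭₀ = 𝔭.comap (up K)` is prime. The induced homomorphism `CR 𝔭₀ →ₐ[K] CR 𝔭` (`Ideal.quotientMapₐ` or `Ideal.Quotient.liftₐ`) is injective, and integral: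
`CR 𝔭` is generated over it by the class of `X 0`, which is a root of the image of the monic polynomial `finSuccEquiv K 2 P` (`P ∈ 𝔭`, `MonZ P`). So `trdeg K (CR 𝔭₀) = trdeg K (CR 𝔭)` (`Algebra.trdeg_add_eq` and `trdeg = 0` of an algebraic extension, or: a transcendence basis of `CR 𝔭₀` is one of `CR 𝔭`), `rk 𝔭₀ = 1`, and
`𝔭₀ = span {R}`, `R` irreducible, by `StmtRk3` (b) with `n = 2`. Second part: `StmtRk1` for `𝔭₀`: `α ⊆ Fin 2` has one element `i`, the class of `X i` is transcendental over `K` in `CR 𝔭₀`, so in `CR 𝔭` (`up K (X i) = X i.succ`; injectivity), i.e. no `aeval (X i.succ) G` with `G ≠ 0` is in `𝔭`. -/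
def StmtCtr : Prop :=
  ∀ (K : Type) [Field K] (P : Pl 3 K) (𝔭 : Ideal (Pl 3 K)) [𝔭.IsPrime], MonZ P → P ∈ 𝔭 → rk 𝔭 = 1 →
    (∃ R : Pl 2 K, Irreducible R ∧ ∀ G : Pl 2 K, up K G ∈ 𝔭 ↔ R ∣ G) ∧
    ∃ i : Fin 2, ∀ G : Polynomial K, G ≠ 0 → Polynomial.aeval (MvPolynomial.X i.succ : Pl 3 K) G ∉ 𝔭

/-- (Et) The curve is unramified over its image in the plane. PROOF. `(R)` is a prime ideal of `Pl 2 K` (the contraction of `𝔭`); `B = Pl 2 K ⧸ (R)`, `κ = Frac B`, `L = Frac (CR 𝔭)`, `B → CR 𝔭` is injective, so `κ → L`. For `G : Pl 3 K` let `G' ∈ κ[Z]` be the image of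
`finSuccEquiv K 2 G ∈ (Pl 2 K)[Z]`, and `ζ ∈ L` the class of `X 0`: `aeval ζ G'` is the class of `G` in `L`. If `G' = 0` then all coefficients of `finSuccEquiv K 2 G` are divisible by `R`, so `up K R ∣ G`. Let `P₁` be the minimal polynomial of `ζ` over `κ`
(`ζ` is a root of the monic `P'`, as `P ∈ 𝔭`). `P' = P₁ * S`, and the derivative of `P'`, which is the image of `pderiv 0 P` (`finSuccEquiv` and `pderiv 0`: check on monomials or by `MvPolynomial.induction_on`), does not vanish at `ζ`; it is `P₁'(ζ) S(ζ)`; so `S(ζ) ≠ 0`. Let `G ∈ 𝔭`: `G'(ζ) = 0`, so `G' = P₁ * H`,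
`S * G' = P' * H`. There is `c ∈ Pl 2 K`, `R ∤ c`, such that `c S`, `c H` have coefficients in the image of `Pl 2 K`, so `c S = S₁'`, `c H = H₁'` with `S₁, H₁ ∈ Pl 3 K` (`IsLocalization.exist_integer_multiples_of_finset`, `Polynomial.lifts`, `IsLocalization.integerNormalization`). `(S₁ G - P H₁)' = c (S G' - P' H) = 0`, so
`S₁ G - P H₁ = up K R * A`, and `S₁(ζ) = c S(ζ) ≠ 0`, i.e. `S₁ ∉ 𝔭`. -/
def StmtEt : Prop :=
  ∀ (K : Type) [Field K] (P : Pl 3 K) (𝔭 : Ideal (Pl 3 K)) [𝔭.IsPrime] (R : Pl 2 K), MonZ P → P ∈ 𝔭 →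
    MvPolynomial.pderiv 0 P ∉ 𝔭 → (∀ G : Pl 2 K, up K G ∈ 𝔭 ↔ R ∣ G) →
    ∀ G ∈ 𝔭, ∃ S A B : Pl 3 K, S ∉ 𝔭 ∧ S * G = up K R * A + P * B

/-- (LocV) A criterion for discrete valuation rings. PROOF. `A_𝔮 = Localization.AtPrime 𝔮` is a Noetherian local domain, its maximal ideal is generated by the image of `R` (every `g ∈ 𝔮` is, up to a unit, a multiple of `R`), and it is not a field (`R ≠ 0`, `R ∈ 𝔮`). So it is a discrete valuation ring
(`IsDiscreteValuationRing.TFAE`, the maximal ideal is principal), so a valuation ring: for every `x ∈ E`: `x` or `x⁻¹` is of the form `n / d`, `d ∉ 𝔮` (`ValuationRing.iff_isInteger_or_isInteger` or elementary). `O` = the set of these elements (`ValuationSubring` with `carrier := {x | ∃ n d, d ∉ 𝔮 ∧ x * d = n}`),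
isomorphic to `A_𝔮` (`IsDiscreteValuationRing` is transported by a ring isomorphism: `RingEquivClass.isDiscreteValuationRing`). Last clause: `v x < 1` says that `x ∈ O` is not a unit of `O`; `x = n / d` with `d ∉ 𝔮` is a unit if and only if `n ∉ 𝔮` (if `x = n / d = n' / d'` with `n ∈ 𝔮` and `n' ∉ 𝔮` then `n d' = n' d`, impossible). -/
def StmtLocV : Prop :=
  ∀ (A E : Type) [CommRing A] [IsDomain A] [IsNoetherianRing A] [Field E] [Algebra A E] [IsFractionRing A E]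
    (𝔮 : Ideal A) [𝔮.IsPrime] (R : A), R ∈ 𝔮 → R ≠ 0 → (∀ g ∈ 𝔮, ∃ s, s ∉ 𝔮 ∧ R ∣ s * g) →
    ∃ O : ValuationSubring E, IsDiscreteValuationRing O ∧
      (∀ x : E, x ∈ O ↔ ∃ n d : A, d ∉ 𝔮 ∧ x * algebraMap A E d = algebraMap A E n) ∧
      ∀ x : E, O.valuation x < 1 ↔ ∃ n d : A, n ∈ 𝔮 ∧ d ∉ 𝔮 ∧ x * algebraMap A E d = algebraMap A E n

/-- (Dgv) The curve is a totally invariant discrete valuation ring. PROOF (uses `StmtCtr`, `StmtEt`, `StmtLocV`, `StmtG1`, `StmtDegV`). `A = CR (span {P})`, `𝔮 = 𝔭 / (P)`, `R` from `StmtCtr` and the class of `up K R` in `A`, not `0`: otherwise `P ∣ up K R`, but `P` is monic in `z`, of degree `≥ 1` (`P` is not `1`).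
`StmtEt` gives the hypothesis of `StmtLocV`. For `x ∈ O` with `x = N / D` let `N̄ / D̄ ∈ L` be the residue `res x`. `ρ (N / D) = …`: for `G : Pl 3 K` `Rst σ 𝔭 L ρb` gives `N', D'` with `D' ∉ 𝔭`, `σ (fr G) * fr D' = fr N'`, `ρb Ḡ * D̄' = N̄'`, and by `Rst σ (span {P}) E ρ` and uniqueness of residues `ρ (xi G) * xi D' = xi N'`.
So `ρ` maps `O` into `O` and `res (ρ x) = ρb (res x)`. So `ρ` maps the maximal ideal into itself, and `ρ x ∈ O` implies `x ∈ O` (otherwise `x⁻¹` is in the maximal ideal). Let `T = [E : ρ E]` and choose `T` elements of `L` which are independent over `ρb L` and `θ i ∈ O` with these residues. `StmtDegV`. -/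
def StmtDgv : Prop :=
  ∀ (K : Type) [Field K] (P : Pl 3 K) (𝔭 : Ideal (Pl 3 K)) [𝔭.IsPrime] [(Ideal.span {P}).IsPrime], MonZ P → P ∈ 𝔭 →
    MvPolynomial.pderiv 0 P ∉ 𝔭 → rk 𝔭 = 1 →
    ∀ (E : Type) [Field E] [Algebra (CR (Ideal.span {P})) E] [IsFractionRing (CR (Ideal.span {P})) E] [Algebra K E]
      [IsScalarTower K (CR (Ideal.span {P})) E] (L : Type) [Field L] [Algebra (CR 𝔭) L] [IsFractionRing (CR 𝔭) L]
      [Algebra K L] [IsScalarTower K (CR 𝔭) L] (σ : RF 3 K →ₐ[K] RF 3 K) (ρ : E →ₐ[K] E) (ρb : L →ₐ[K] L),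
      Rst σ (Ideal.span {P}) E ρ → Rst σ 𝔭 L ρb → Module.Finite ρ.fieldRange E →
      Module.finrank ρ.fieldRange E ≤ Module.finrank ρb.fieldRange L →
      (∃ R : Pl 2 K, R ≠ 0 ∧ up K R ∈ 𝔭) ∧
      (∃ i : Fin 2, ∀ G : Polynomial K, G ≠ 0 → Polynomial.aeval (MvPolynomial.X i.succ : Pl 3 K) G ∉ 𝔭) ∧
      ∃ O : ValuationSubring E, InTI K E ρ O ∧ (∀ G : Pl 3 K, xi (Ideal.span {P}) E G ∈ O) ∧
        ∀ G : Pl 3 K, O.valuation (xi (Ideal.span {P}) E G) < 1 ↔ G ∈ 𝔭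

/-- (CanS) The interface with the assembly. PROOF (uses `StmtCan`, `StmtDgv`, `StmtG1` (a)). `x i = xi (X i.succ)`, algebraically independent over `K` (`P` monic in `z`: no multiple of `P` but `0` is in `K[x₁, x₂]`), `E` is finite over `K(x)` (generated by the class of `z`, a root of `P`). `Γ` from `StmtCan`. -/
def StmtCanS : Prop :=
  ∀ (K : Type) [Field K] [CharZero K] (P : Pl 3 K) [(Ideal.span {P}).IsPrime], MonZ P →
    ∀ (E : Type) [Field E] [Algebra (CR (Ideal.span {P})) E] [IsFractionRing (CR (Ideal.span {P})) E] [Algebra K E]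
      [IsScalarTower K (CR (Ideal.span {P})) E] (σ : RF 3 K →ₐ[K] RF 3 K) (ρ : E →ₐ[K] E),
      Rst σ (Ideal.span {P}) E ρ → (∀ h : E, ρ h = h → ∃ c : K, h = algebraMap K E c) →
      ∃ Γ : Pl 2 K, Γ ≠ 0 ∧ ∀ (𝔭 : Ideal (Pl 3 K)) [𝔭.IsPrime], P ∈ 𝔭 → MvPolynomial.pderiv 0 P ∉ 𝔭 → rk 𝔭 = 1 →
        ∀ (L : Type) [Field L] [Algebra (CR 𝔭) L] [IsFractionRing (CR 𝔭) L] [Algebra K L] [IsScalarTower K (CR 𝔭) L]
          (ρb : L →ₐ[K] L), Rst σ 𝔭 L ρb → Module.finrank ρ.fieldRange E ≤ Module.finrank ρb.fieldRange L →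
          up K Γ ∈ 𝔭

end Pool.Agent.Lib.MP_16285c_agS
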